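import Pool.Agent.Helper50.CSB.Defs
import Pool.Agent.Helper45.CSM.Inv
import Pool.Agent.Helper45.CSM.Fam

/-!
# Ribbons of sweeps: words of distinct letters and blocks (piece P2)
-/

namespace H50R

open H45C Equiv MvPolynomial

variable {m : ℕ}

/-! ### words -/

theorem p2_wp_append (l l' : List (Fin m)) : wp (l ++ l') = wp l' * wp l := by
  induction l with
  | nil => rw [List.nil_append, wp, mul_one]
  | cons k l ih => rw [List.cons_append, wp, wp, ih, mul_assoc]

/-- a reflection `s_j`, `j ≠ k`, preserves `{x ≤ k}` -/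
theorem p2_sg_le (k j : Fin m) (h : j ≠ k) (x : Fin (m + 1)) :
    sg j x ≤ k.castSucc ↔ x ≤ k.castSucc := by
  rw [Fin.le_def, Fin.le_def, sg_val, Fin.val_castSucc]
  rw [Ne, Fin.ext_iff] at h
  split_ifs <;> omega

theorem p2_wp_le (k : Fin m) (l : List (Fin m)) (h : k ∉ l) (x : Fin (m + 1)) :
    wp l x ≤ k.castSucc ↔ x ≤ k.castSucc := by
  induction l generalizing x with
  | nil => rfl
  | cons j l ih =>
    rw [List.mem_cons, not_or] at h
    rw [wp, Perm.mul_apply, ih h.2, p2_sg_le k j (Ne.symm h.1)]

/-- words of distinct letters are reduced: `wp l` preserves `{x ≤ k}` if `k ∉ l`, so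
`inv_mul_sg_of_asc` applies -/
theorem inv_wp_nodup (l : List (Fin m)) (hl : l.Nodup) : inv (wp l) = l.length := by
  induction l with
  | nil => exact inv_one
  | cons k l ih =>
    rw [List.nodup_cons] at hl
    have h1 : wp l k.castSucc ≤ k.castSucc := (p2_wp_le k l hl.1 _).mpr le_rfl
    have h2 : ¬ wp l k.succ ≤ k.castSucc := by
      rw [p2_wp_le k l hl.1]
      exact not_le.mpr Fin.castSucc_lt_succ
    rw [wp, inv_mul_sg_of_asc _ _ (h1.trans_lt (not_le.mp h2)), ih hl.2, List.length_cons]

/-! ### blocks -/

theorem p2_vb_append (B C : List (ℕ × ℕ)) : vb m (B ++ C) = vb m B * vb m C := by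
  induction B with
  | nil => rw [List.nil_append, vb, one_mul]
  | cons b B ih => rw [List.cons_append, vb, vb, ih, mul_assoc]

theorem p2_good_iff (B : List (ℕ × ℕ)) : Good m B ↔ (∀ b ∈ B, 1 ≤ b.2 ∧ b.1 + b.2 ≤ m) ∧
    B.Pairwise fun b c => b.1 + b.2 ≤ c.1 := by
  induction B with
  | nil => simp [Good]
  | cons b L ih =>
    cases L with
    | nil => simp [Good]
    | cons c L =>
      rw [Good, ih]
      constructor
      · rintro ⟨h1, h2, h3, h4⟩
        have h5 := h3 c List.mem_cons_self
        refine ⟨fun d hd => ?_, List.pairwise_cons.mpr ⟨fun d hd => ?_, h4⟩⟩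
        · rcases List.mem_cons.mp hd with rfl | hd
          · exact ⟨h1, by omega⟩
          · exact h3 d hd
        · rcases List.mem_cons.mp hd with rfl | hd
          · exact h2
          · have := (List.pairwise_cons.mp h4).1 d hd
            omega
      · rintro ⟨h1, h23⟩
        obtain ⟨h2, h3⟩ := List.pairwise_cons.mp h23
        exact ⟨(h1 b List.mem_cons_self).1, h2 c List.mem_cons_self,
          fun d hd => h1 d (List.mem_cons_of_mem _ hd), h3⟩

theorem p2_sn (k : Fin m) : sn m k = sg k := by
  rw [sn, dif_pos k.2]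

theorem p2_row_word (a i : ℕ) (h : i + a ≤ m) : ∃ l : List (Fin m), wp l = row m i a ∧
    l.length = a ∧ l.Nodup ∧ ∀ x ∈ l, i ≤ (x : ℕ) ∧ (x : ℕ) < i + a := by
  induction a generalizing i with
  | zero => exact ⟨[], rfl, rfl, List.nodup_nil, fun x hx => absurd hx List.not_mem_nil⟩
  | succ a ih =>
    obtain ⟨l, h1, h2, h3, h4⟩ := ih (i + 1) (by omega)
    have hi : i < m := by omega
    refine ⟨⟨i, hi⟩ :: l, ?_, ?_, ?_, ?_⟩
    · rw [wp, h1, row, sn, dif_pos hi]
    · rw [List.length_cons, h2]
    · rw [List.nodup_cons]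
      refine ⟨fun h5 => ?_, h3⟩
      have := (h4 _ h5).1
      simp only at this
      omega
    · intro x hx
      rcases List.mem_cons.mp hx with rfl | hx
      · simp only
        omega
      · have := h4 x hx
        omega

theorem p2_good_tail {b : ℕ × ℕ} {L : List (ℕ × ℕ)} (h : Good m (b :: L)) : Good m L := by
  rw [p2_good_iff] at h ⊢
  exact ⟨fun d hd => h.1 d (List.mem_cons_of_mem _ hd), (List.pairwise_cons.mp h.2).2⟩

theorem p2_vb_word (B : List (ℕ × ℕ)) (h : Good m B) : ∃ l : List (Fin m), wp l = vb m B ∧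
    l.length = (B.map Prod.snd).sum ∧ l.Nodup ∧
      ∀ x ∈ l, ∃ b ∈ B, b.1 ≤ (x : ℕ) ∧ (x : ℕ) < b.1 + b.2 := by
  induction B with
  | nil => exact ⟨[], rfl, rfl, List.nodup_nil, fun x hx => absurd hx List.not_mem_nil⟩
  | cons b L ih =>
    obtain ⟨l, h1, h2, h3, h4⟩ := ih (p2_good_tail h)
    rw [p2_good_iff] at h
    obtain ⟨l', h1', h2', h3', h4'⟩ := p2_row_word (m := m) b.2 b.1 (h.1 b List.mem_cons_self).2
    refine ⟨l ++ l', ?_, ?_, ?_, ?_⟩
    · rw [p2_wp_append, h1, h1', vb]
    · rw [List.length_append, h2, h2', List.map_cons, List.sum_cons, add_comm]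
    · rw [List.nodup_append]
      refine ⟨h3, h3', fun x hx y hy hxy => ?_⟩
      obtain ⟨c, hc, h5, -⟩ := h4 x hx
      have h6 := (List.pairwise_cons.mp h.2).1 c hc
      have h7 := h4' y hy
      rw [hxy] at h5
      omega
    · intro x hx
      rcases List.mem_append.mp hx with hx | hx
      · obtain ⟨c, hc, h5⟩ := h4 x hx
        exact ⟨c, List.mem_cons_of_mem _ hc, h5⟩
      · exact ⟨b, List.mem_cons_self, h4' x hx⟩

theorem inv_vb (B : List (ℕ × ℕ)) (h : Good m B) : inv (vb m B) = (B.map Prod.snd).sum := by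
  obtain ⟨l, h1, h2, h3, -⟩ := p2_vb_word B h
  rw [← h1, inv_wp_nodup l h3, h2]

/-! ### distant reflections commute -/

theorem p2_comm_sg (k j : Fin m) (h : (k : ℕ) + 2 ≤ j) : sg j * sg k = sg k * sg j := by
  refine Equiv.ext fun x => Fin.ext ?_
  simp only [Perm.mul_apply, sg_val]
  split_ifs <;> omega

theorem p2_comm_sn (k : Fin m) (j : ℕ) (h : (k : ℕ) + 2 ≤ j) : sn m j * sg k = sg k * sn m j := by
  unfold sn
  split_ifs with hj
  · exact p2_comm_sg k ⟨j, hj⟩ h
  · rw [one_mul, mul_one]

theorem p2_comm_row (k : Fin m) (a i : ℕ) (h : (k : ℕ) + 2 ≤ i) :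
    row m i a * sg k = sg k * row m i a := by
  induction a generalizing i with
  | zero => rw [row, one_mul, mul_one]
  | succ a ih => rw [row, mul_assoc, p2_comm_sn k i h, ← mul_assoc, ih (i + 1) (by omega), mul_assoc]

theorem p2_comm_vb (k : Fin m) (C : List (ℕ × ℕ)) (h : ∀ c ∈ C, (k : ℕ) + 2 ≤ c.1) :
    vb m C * sg k = sg k * vb m C := by
  induction C with
  | nil => rw [vb, one_mul, mul_one]
  | cons c C ih =>
    rw [vb, mul_assoc, ih fun d hd => h d (List.mem_cons_of_mem _ hd), ← mul_assoc,
      p2_comm_row k _ _ (h c List.mem_cons_self), mul_assoc]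

/-- removing `s_k` on the right: a block of length at least `2` -/
theorem vb_mul_two (k : Fin m) (B C : List (ℕ × ℕ)) (a : ℕ)
    (h : Good m (B ++ ((k : ℕ), a + 2) :: C)) :
    vb m (B ++ ((k : ℕ), a + 2) :: C) * sg k = vb m (B ++ ((k : ℕ) + 1, a + 1) :: C) := by
  rw [p2_good_iff, List.pairwise_append, List.pairwise_cons] at h
  have h1 : ∀ c ∈ C, (k : ℕ) + 2 ≤ c.1 := fun c hc => by
    have := h.2.2.1.1 c hc
    simp only at this
    omega
  have h2 : row m k (a + 2) = row m (k + 1) (a + 1) * sg k := by
    rw [row, p2_sn]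
  rw [p2_vb_append, p2_vb_append, vb, vb, h2, mul_assoc, mul_assoc, p2_comm_vb k C h1,
    mul_assoc, ← mul_assoc (sg k) (sg k), sg_mul_self, one_mul]

/-- removing `s_k` on the right: a block of length `1`, the next one not adjacent -/
theorem vb_mul_one (k : Fin m) (B C : List (ℕ × ℕ))
    (h : Good m (B ++ ((k : ℕ), 1) :: C)) (hC : ∀ c ∈ C, c.1 ≠ (k : ℕ) + 1) :
    vb m (B ++ ((k : ℕ), 1) :: C) * sg k = vb m (B ++ C) := by
  rw [p2_good_iff, List.pairwise_append, List.pairwise_cons] at h
  have h1 : ∀ c ∈ C, (k : ℕ) + 2 ≤ c.1 := fun c hc => by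
    have := h.2.2.1.1 c hc
    have := hC c hc
    simp only at *
    omega
  have h2 : row m k 1 = sg k := by
    rw [row, p2_sn, row, one_mul]
  rw [p2_vb_append, p2_vb_append, vb, h2, mul_assoc, mul_assoc, p2_comm_vb k C h1,
    ← mul_assoc (sg k) (sg k), sg_mul_self, one_mul]

/-! ### the blocks of a word of distinct letters -/

theorem p2_split (k : ℕ) (B : List (ℕ × ℕ)) (h : Good m B)
    (hk : ∀ b ∈ B, ¬ (b.1 ≤ k ∧ k < b.1 + b.2)) : ∃ B₁ B₂, B = B₁ ++ B₂ ∧
      (∀ b ∈ B₁, b.1 + b.2 ≤ k) ∧ ∀ b ∈ B₂, k < b.1 := by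
  induction B with
  | nil => exact ⟨[], [], rfl, fun b hb => absurd hb List.not_mem_nil,
      fun b hb => absurd hb List.not_mem_nil⟩
  | cons b B ih =>
    obtain ⟨B₁, B₂, h1, h2, h3⟩ := ih (p2_good_tail h) fun c hc =>
      hk c (List.mem_cons_of_mem _ hc)
    rw [p2_good_iff] at h
    have h4 := hk b List.mem_cons_self
    by_cases h5 : k < b.1
    · refine ⟨[], b :: B, rfl, fun b hb => absurd hb List.not_mem_nil, fun c hc => ?_⟩
      rcases List.mem_cons.mp hc with rfl | hc
      · exact h5
      · have := (List.pairwise_cons.mp h.2).1 c hc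
        omega
    · refine ⟨b :: B₁, B₂, by rw [h1, List.cons_append], fun c hc => ?_, h3⟩
      rcases List.mem_cons.mp hc with rfl | hc
      · omega
      · exact h2 c hc

theorem p2_exists (l : List (Fin m)) (hl : l.Nodup) :
    ∃ B : List (ℕ × ℕ), Good m B ∧ vb m B = wp l ∧
      ∀ x : Fin m, x ∈ l ↔ ∃ b ∈ B, b.1 ≤ (x : ℕ) ∧ (x : ℕ) < b.1 + b.2 := by
  induction l with
  | nil => exact ⟨[], trivial, rfl, fun x => by simp⟩
  | cons k l ih =>
    rw [List.nodup_cons] at hl
    obtain ⟨B, h1, h2, h3⟩ := ih hl.2
    have h4 : ∀ b ∈ B, ¬ (b.1 ≤ (k : ℕ) ∧ (k : ℕ) < b.1 + b.2) := fun b hb hb' =>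
      hl.1 ((h3 k).mpr ⟨b, hb, hb'⟩)
    obtain ⟨B₁, B₂, rfl, h5, h6⟩ := p2_split (k : ℕ) B h1 h4
    have hk := k.2
    -- the case that no block starts at `k + 1`
    have hA : (∀ b ∈ B₂, (k : ℕ) + 2 ≤ b.1) → ∃ B : List (ℕ × ℕ), Good m B ∧
        vb m B = wp (k :: l) ∧
          ∀ x : Fin m, x ∈ k :: l ↔ ∃ b ∈ B, b.1 ≤ (x : ℕ) ∧ (x : ℕ) < b.1 + b.2 := by
      intro h7
      refine ⟨B₁ ++ ((k : ℕ), 1) :: B₂, ?_, ?_, ?_⟩
      · rw [p2_good_iff, List.pairwise_append] at h1 ⊢
        obtain ⟨h8, h9, h10, h11⟩ := h1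
        refine ⟨fun b hb => ?_, h9, List.pairwise_cons.mpr ⟨fun b hb => ?_, h10⟩,
          fun b hb c hc => ?_⟩
        · rcases List.mem_append.mp hb with hb | hb
          · exact h8 b (List.mem_append_left _ hb)
          · rcases List.mem_cons.mp hb with rfl | hb
            · exact ⟨le_rfl, by simp only; omega⟩
            · exact h8 b (List.mem_append_right _ hb)
        · have := h7 b hb
          simp only
          omega
        · rcases List.mem_cons.mp hc with rfl | hc
          · exact h5 b hb
          · exact h11 b hb c hc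
      · have h8 : row m k 1 = sg k := by
          rw [row, p2_sn, row, one_mul]
        rw [wp, ← h2, p2_vb_append, p2_vb_append, vb, h8, mul_assoc, p2_comm_vb k B₂ h7]
      · intro x
        rw [List.mem_cons, h3 x]
        constructor
        · rintro (rfl | ⟨b, hb, hb'⟩)
          · exact ⟨((x : ℕ), 1), List.mem_append_right _ List.mem_cons_self, le_rfl,
              by simp only; omega⟩
          · refine ⟨b, ?_, hb'⟩
            rcases List.mem_append.mp hb with hb | hb
            · exact List.mem_append_left _ hb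
            · exact List.mem_append_right _ (List.mem_cons_of_mem _ hb)
        · rintro ⟨b, hb, hb'⟩
          rcases List.mem_append.mp hb with hb | hb
          · exact .inr ⟨b, List.mem_append_left _ hb, hb'⟩
          · rcases List.mem_cons.mp hb with rfl | hb
            · refine .inl (Fin.ext ?_)
              simp only at hb'
              omega
            · exact .inr ⟨b, List.mem_append_right _ hb, hb'⟩
    cases B₂ with
    | nil => exact hA fun b hb => absurd hb List.not_mem_nil
    | cons c B₂ =>
      by_cases hc : c.1 = (k : ℕ) + 1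
      · -- the next block starts at `k + 1`
        obtain ⟨i, b⟩ := c
        simp only at hc
        subst hc
        rw [p2_good_iff, List.pairwise_append, List.pairwise_cons] at h1
        obtain ⟨h8, h9, ⟨h10, h11⟩, h12⟩ := h1
        have h13 := h8 ((k : ℕ) + 1, b) (List.mem_append_right _ List.mem_cons_self)
        simp only at h13
        have h7 : ∀ c ∈ B₂, (k : ℕ) + 2 ≤ c.1 := fun c hc => by
          have := h10 c hc
          simp only at this
          omega
        refine ⟨B₁ ++ ((k : ℕ), b + 1) :: B₂, ?_, ?_, ?_⟩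
        · rw [p2_good_iff, List.pairwise_append]
          refine ⟨fun d hd => ?_, h9, List.pairwise_cons.mpr ⟨fun d hd => ?_, h11⟩,
            fun d hd c hc => ?_⟩
          · rcases List.mem_append.mp hd with hd | hd
            · exact h8 d (List.mem_append_left _ hd)
            · rcases List.mem_cons.mp hd with rfl | hd
              · exact ⟨by simp only; omega, by simp only; omega⟩
              · exact h8 d (List.mem_append_right _ (List.mem_cons_of_mem _ hd))
          · have := h10 d hd
            simp only at this ⊢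
            omega
          · rcases List.mem_cons.mp hc with rfl | hc
            · exact h5 d hd
            · exact h12 d hd c (List.mem_cons_of_mem _ hc)
        · have h14 : row m k (b + 1) = row m (k + 1) b * sg k := by
            rw [row, p2_sn]
          rw [wp, ← h2, p2_vb_append, p2_vb_append, vb, vb, h14, mul_assoc, mul_assoc,
            mul_assoc, p2_comm_vb k B₂ h7]
        · intro x
          rw [List.mem_cons, h3 x]
          constructor
          · rintro (rfl | ⟨d, hd, hd'⟩)
            · exact ⟨((x : ℕ), b + 1), List.mem_append_right _ List.mem_cons_self, le_rfl,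
                by simp only; omega⟩
            · rcases List.mem_append.mp hd with hd | hd
              · exact ⟨d, List.mem_append_left _ hd, hd'⟩
              · rcases List.mem_cons.mp hd with rfl | hd
                · refine ⟨((k : ℕ), b + 1), List.mem_append_right _ List.mem_cons_self, ?_, ?_⟩
                  · simp only at hd' ⊢
                    omega
                  · simp only at hd' ⊢
                    omega
                · exact ⟨d, List.mem_append_right _ (List.mem_cons_of_mem _ hd), hd'⟩
          · rintro ⟨d, hd, hd'⟩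
            rcases List.mem_append.mp hd with hd | hd
            · exact .inr ⟨d, List.mem_append_left _ hd, hd'⟩
            · rcases List.mem_cons.mp hd with rfl | hd
              · simp only at hd'
                by_cases hx : (x : ℕ) = k
                · exact .inl (Fin.ext hx)
                · refine .inr ⟨((k : ℕ) + 1, b),
                    List.mem_append_right _ List.mem_cons_self, ?_, ?_⟩
                  · simp only
                    omega
                  · simp only
                    omega
              · exact .inr ⟨d, List.mem_append_right _ (List.mem_cons_of_mem _ hd), hd'⟩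
      · refine hA fun d hd => ?_
        have h7 := h6 c List.mem_cons_self
        rw [p2_good_iff, List.pairwise_append, List.pairwise_cons] at h1
        rcases List.mem_cons.mp hd with rfl | hd
        · omega
        · have := h1.2.2.1.1 d hd
          omega

/-- induction on `l` (`wp (k :: l) = wp l * sg k`): if `B = B₁ ++ B₂` are the blocks of `l`, those
of `B₁` below `k`, those of `B₂` above `k`, then the blocks of `k :: l` are
`B₁ ++ (k, b + 1) :: B₂'` if `B₂ = (k + 1, b) :: B₂'`, and `B₁ ++ (k, 1) :: B₂` otherwise -/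
theorem exists_blocks (l : List (Fin m)) (hl : l.Nodup) :
    ∃ B : List (ℕ × ℕ), Good m B ∧ vb m B = wp l := by
  obtain ⟨B, h1, h2, -⟩ := p2_exists l hl
  exact ⟨B, h1, h2⟩

end H50R
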