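import Pool.Agent.Helper50.CSB.Q0

/-!
# Products of rows: every permutation is one, and orthogonal products
-/

namespace H50R

open H45C Equiv MvPolynomial

variable {m : ℕ}

/-! ## C1 -/

theorem c1_inv_inv (v : WG m) : inv v⁻¹ = inv v := by
  unfold inv
  refine Finset.card_nbij' (fun p => (v⁻¹ p.2, v⁻¹ p.1)) (fun p => (v p.2, v p.1)) ?_ ?_ ?_ ?_
  · intro p hp
    simp only [Finset.coe_filter, Finset.mem_univ, true_and, Set.mem_ofPred_eq] at hp ⊢
    exact ⟨hp.2, by simpa using hp.1⟩
  · intro p hp
    simp only [Finset.coe_filter, Finset.mem_univ, true_and, Set.mem_ofPred_eq] at hp ⊢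
    exact ⟨hp.2, by simpa using hp.1⟩
  · intro p _
    simp
  · intro p _
    simp

theorem c1_row_succ (a i : ℕ) : row m i (a + 1) = sn m (i + a) * row m i a := by
  induction a generalizing i with
  | zero => simp [row]
  | succ a ih =>
    rw [row, ih (i + 1), mul_assoc]
    have h : i + 1 + a = i + (a + 1) := by ring
    rw [h]
    rfl

theorem c1_row (j : Fin (m + 1)) (c : ℕ) : ∀ v : WG m, (∀ x : Fin (m + 1), x < j → v x = x) →
    ((v j : Fin (m + 1)) : ℕ) = j + c → ∃ w : WG m, (∀ x : Fin (m + 1), x ≤ j → w x = x) ∧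
      v = row m j c * w ∧ inv v = c + inv w := by
  induction c with
  | zero =>
    intro v hv hj
    refine ⟨v, fun x hx => ?_, by simp [row], by simp⟩
    rcases lt_or_eq_of_le hx with h | h
    · exact hv x h
    · rw [h]
      exact Fin.ext (by simpa using hj)
  | succ c ih =>
    intro v hv hj
    have hlt : (j : ℕ) + c < m := by
      have := (v j).isLt
      omega
    set i : Fin m := ⟨j + c, hlt⟩ with hi
    have hvj : v j = i.succ := Fin.ext (by rw [hj]; simp [hi]; omega)
    have h1 : ∀ x : Fin (m + 1), x < j → (sg i * v) x = x := by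
      intro x hx
      have hx' : (x : ℕ) < j := hx
      rw [Perm.mul_apply, hv x hx]
      exact sg_of_ne i x (by simp only [hi]; omega) (by simp only [hi]; omega)
    have h2 : (((sg i * v) j : Fin (m + 1)) : ℕ) = j + c := by
      rw [Perm.mul_apply, hvj, sg, swap_apply_right]
      simp [hi]
    obtain ⟨w, hw1, hw2, hw3⟩ := ih (sg i * v) h1 h2
    refine ⟨w, hw1, ?_, ?_⟩
    · have h3 : v = sg i * (sg i * v) := by rw [← mul_assoc, sg_mul_self, one_mul]
      rw [h3, hw2, c1_row_succ, mul_assoc, sn_of_lt hlt]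
    · have h3 : (sg i * v)⁻¹ = v⁻¹ * sg i := by rw [mul_inv_rev, sg_inv]
      have h4 : v⁻¹ i.succ < v⁻¹ i.castSucc := by
        have e1 : v⁻¹ i.succ = j := by rw [← hvj]; simp
        rw [e1]
        set p := v⁻¹ i.castSucc with hp
        have hvp : v p = i.castSucc := by rw [hp]; simp
        rcases lt_trichotomy p j with h | h | h
        · exfalso
          have h5 := hv p h
          rw [hvp] at h5
          have h6 : (p : ℕ) < j := h
          rw [← h5] at h6
          simp only [hi, Fin.val_castSucc] at h6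
          omega
        · exfalso
          rw [h, hvj] at hvp
          exact (castSucc_ne_succ i) hvp.symm
        · exact h
      have h5 := inv_mul_sg_of_desc v⁻¹ i h4
      rw [← h3, c1_inv_inv, c1_inv_inv] at h5
      omega

theorem c1_aux (n : ℕ) : ∀ j : ℕ, j + n = m → ∀ v : WG m, (∀ x : Fin (m + 1), (x : ℕ) < j →
    v x = x) → ∃ L : List (ℕ × ℕ), Srt m L ∧ (∀ b ∈ L, j ≤ b.1) ∧ vb m L = v ∧
      (L.map Prod.snd).sum ≤ inv v := by
  induction n with
  | zero =>
    intro j hj v hv
    have h1 : v = 1 := by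
      ext x
      rcases lt_or_ge (x : ℕ) j with h | h
      · rw [hv x h]; rfl
      · have hx : (x : ℕ) = m := by have := x.isLt; omega
        rcases lt_or_ge ((v x : Fin (m + 1)) : ℕ) j with h2 | h2
        · have h3 := v.injective (hv (v x) h2)
          rw [h3]; rfl
        · have := (v x).isLt
          show ((v x : Fin (m + 1)) : ℕ) = x
          omega
    refine ⟨[], ⟨List.Pairwise.nil, by simp⟩, by simp, ?_, by simp⟩
    rw [h1]; rfl
  | succ n ih =>
    intro j hj v hv
    have hjm : j < m + 1 := by omega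
    set jj : Fin (m + 1) := ⟨j, hjm⟩ with hjj
    have h1 : j ≤ ((v jj : Fin (m + 1)) : ℕ) := by
      by_contra hc
      have h2 := v.injective (hv (v jj) (by omega))
      have h3 : ((v jj : Fin (m + 1)) : ℕ) = j := by rw [h2]
      omega
    obtain ⟨c, hc⟩ := Nat.exists_eq_add_of_le h1
    obtain ⟨w, hw1, hw2, hw3⟩ := c1_row jj c v (fun x hx => hv x hx) hc
    obtain ⟨L, hL1, hL2, hL3, hL4⟩ := ih (j + 1) (by omega) w
      (fun x hx => hw1 x (Fin.mk_le_mk.2 (by simpa using Nat.lt_succ_iff.1 hx)))
    rcases Nat.eq_zero_or_pos c with h0 | h0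
    · subst h0
      refine ⟨L, hL1, fun b hb => by have := hL2 b hb; omega, ?_, by omega⟩
      rw [hL3, hw2]; simp [row]
    · refine ⟨(j, c) :: L, ⟨List.pairwise_cons.2 ⟨fun b hb => ?_, hL1.1⟩, ?_⟩, ?_, ?_, ?_⟩
      · have := hL2 b hb
        show j < b.1
        omega
      · intro b hb
        rcases List.mem_cons.1 hb with rfl | hb
        · have := (v jj).isLt
          exact ⟨h0, by show j + c ≤ m; omega⟩
        · exact hL1.2 b hb
      · intro b hb
        rcases List.mem_cons.1 hb with rfl | hb
        · exact le_rfl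
        · have := hL2 b hb; omega
      · show row m j c * vb m L = v
        rw [hL3, hw2]
      · simp only [List.map_cons, List.sum_cons]
        omega

/-- C1 -/
theorem exists_srt (v : WG m) : ∃ L, Srt m L ∧ vb m L = v ∧ (L.map Prod.snd).sum ≤ inv v := by
  obtain ⟨L, h1, -, h2, h3⟩ := c1_aux m 0 (by omega) v (fun x hx => by omega)
  exact ⟨L, h1, h2, h3⟩

/-! ## C2 -/

/-- null polynomials -/
def C2Null (P : Pol m) : Prop := ∀ l : List (Fin m), constantCoeff (dd l P) = 0

theorem C2Null.add {P Q : Pol m} (hP : C2Null P) (hQ : C2Null Q) : C2Null (P + Q) := fun l => by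
  rw [dd_add, map_add, hP l, hQ l, add_zero]

theorem c2_dd_C (l : List (Fin m)) (a : ℤ) (P : Pol m) : dd l (C a * P) = C a * dd l P := by
  induction l generalizing P with
  | nil => rfl
  | cons k l ih =>
    simp only [dd]
    rw [dd1_mul_of_inv k (C a) P (pact_C _ _), ih]

theorem c2_dd1_X (k : Fin m) (j : Fin (m + 1)) : ∃ a : ℤ, dd1 k (X j : Pol m) = C a := by
  by_cases h1 : j = k.castSucc
  · subst h1
    exact ⟨1, by rw [dd1_X_left, C_1]⟩
  · by_cases h2 : j = k.succ
    · subst h2
      exact ⟨-1, by rw [dd1_X_right, C_neg, C_1]⟩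
    · exact ⟨0, by rw [dd1_X_of_ne k j h1 h2, C_0]⟩

theorem c2_X (l : List (Fin m)) (P : Pol m) (h : C2Null P) (j : Fin (m + 1)) :
    constantCoeff (dd l (X j * P)) = 0 := by
  induction l generalizing P j with
  | nil =>
    simp only [dd]
    rw [map_mul, constantCoeff_X, zero_mul]
  | cons k l ih =>
    obtain ⟨a, ha⟩ := c2_dd1_X k j
    simp only [dd]
    rw [dd1_mul, ha, pact_X, dd_add, map_add, c2_dd_C, map_mul, h l, mul_zero, zero_add]
    exact ih (dd1 k P) (fun l' => h (k :: l')) (sg k j)

theorem C2Null.mul_left {P : Pol m} (hP : C2Null P) (R : Pol m) : C2Null (R * P) := by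
  induction R using MvPolynomial.induction_on with
  | C a => exact fun l => by rw [c2_dd_C, map_mul, hP l, mul_zero]
  | add p q hp hq => rw [add_mul]; exact hp.add hq
  | mul_X p j hp =>
    have h : p * X j * P = X j * (p * P) := by ring
    rw [h]
    exact fun l => c2_X l _ hp j

theorem C2Null.mul_right {P : Pol m} (hP : C2Null P) (R : Pol m) : C2Null (P * R) := by
  rw [mul_comm]; exact hP.mul_left R

theorem c2_add {v : WG m} {P N : Pol m} (hP : IsSchub v P) (hN : C2Null N) : IsSchub v (P + N) :=
  fun l => by rw [dd_add, map_add, hP l, hN l, add_zero]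

theorem c2_asc {v : WG m} {P : Pol m} (hP : IsSchub v P) (k : Fin m)
    (hk : v k.castSucc < v k.succ) : C2Null (dd1 k P) := by
  intro l
  have h := hP (k :: l)
  rw [if_neg] at h
  · exact h
  · rintro ⟨h1, h2⟩
    have h3 := inv_wp_le l
    have h4 : wp l = v * sg k := by rw [← h1, wp, mul_assoc, sg_mul_self, mul_one]
    rw [h4, inv_mul_sg_of_asc v k hk] at h3
    rw [List.length_cons] at h2
    omega

theorem c2_step (v : WG m) (P : Pol m)
    (hd : ∀ k : Fin m, v k.succ < v k.castSucc → IsSchub (v * sg k) (dd1 k P))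
    (ha : ∀ k : Fin m, v k.castSucc < v k.succ → C2Null (dd1 k P))
    (hc : constantCoeff P = if v = 1 then 1 else 0) : IsSchub v P := by
  intro l
  cases l with
  | nil =>
    show constantCoeff P = _
    rw [hc]
    by_cases h : v = 1
    · have h2 : wp ([] : List (Fin m)) = v ∧ ([] : List (Fin m)).length = inv v := by
        subst h
        exact ⟨rfl, inv_one.symm⟩
      rw [if_pos h, if_pos h2]
    · have h2 : ¬ (wp ([] : List (Fin m)) = v ∧ ([] : List (Fin m)).length = inv v) := by
        rintro ⟨h1, -⟩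
        exact h h1.symm
      rw [if_neg h, if_neg h2]
  | cons k l =>
    have hiff : wp (k :: l) = v ↔ wp l = v * sg k := by
      constructor
      · intro h
        rw [← h, wp, mul_assoc, sg_mul_self, mul_one]
      · intro h
        rw [wp, h, mul_assoc, sg_mul_self, mul_one]
    show constantCoeff (dd l (dd1 k P)) = _
    rcases lt_or_gt_of_ne (fun h => castSucc_ne_succ k (v.injective h)) with h | h
    · have h2 : ¬ (wp (k :: l) = v ∧ (k :: l).length = inv v) := by
        rintro ⟨h1, h2⟩
        have h3 := inv_wp_le l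
        rw [hiff.1 h1, inv_mul_sg_of_asc v k h] at h3
        rw [List.length_cons] at h2
        omega
      rw [ha k h l, if_neg h2]
    · have h1 := inv_mul_sg_of_desc v k h
      rw [hd k h l]
      refine if_congr ?_ rfl rfl
      rw [hiff, List.length_cons]
      refine and_congr_right fun _ => ?_
      omega

theorem c2_const {v : WG m} {P : Pol m} (hP : IsSchub v P) :
    constantCoeff P = if v = 1 then 1 else 0 := by
  have h := hP []
  have h1 : (wp ([] : List (Fin m)) = v ∧ ([] : List (Fin m)).length = inv v) ↔ v = 1 := by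
    constructor
    · rintro ⟨h1, -⟩
      exact h1.symm
    · rintro rfl
      exact ⟨rfl, inv_one.symm⟩
  rw [if_congr h1 rfl rfl] at h
  exact h

theorem c2_mul (k : ℕ) (n : ℕ) : ∀ u w : WG m, (∀ x : Fin (m + 1), k ≤ (x : ℕ) → u x = x) →
    (∀ x : Fin (m + 1), (x : ℕ) < k → w x = x) → inv u + inv w = n → ∀ P Q : Pol m,
    IsSchub u P → IsSchub w Q → IsSchub (u * w) (P * Q) := by
  induction n using Nat.strong_induction_on with
  | _ n ih =>
  intro u w hu hw hn P Q hP hQ
  have hu2 : ∀ x : Fin (m + 1), (x : ℕ) < k → ((u x : Fin (m + 1)) : ℕ) < k := by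
    intro x hx
    by_contra hc
    have h1 := u.injective (hu (u x) (by omega))
    rw [h1] at hc
    exact hc hx
  have hw2 : ∀ x : Fin (m + 1), k ≤ (x : ℕ) → k ≤ ((w x : Fin (m + 1)) : ℕ) := by
    intro x hx
    by_contra hc
    have h1 := w.injective (hw (w x) (by omega))
    rw [h1] at hc
    exact hc hx
  have hl : ∀ x : Fin (m + 1), (x : ℕ) < k → (u * w) x = u x := fun x hx => by
    rw [Perm.mul_apply, hw x hx]
  have hr : ∀ x : Fin (m + 1), k ≤ (x : ℕ) → (u * w) x = w x := fun x hx => by
    rw [Perm.mul_apply, hu _ (hw2 x hx)]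
  have uasc : ∀ j : Fin m, k ≤ (j : ℕ) + 1 → u j.castSucc < u j.succ := by
    intro j hj
    rw [hu j.succ (by simpa using hj)]
    rcases lt_or_ge (j : ℕ) k with h | h
    · have := hu2 j.castSucc (by simpa using h)
      exact Fin.lt_def.2 (by simp only [Fin.val_succ]; omega)
    · rw [hu j.castSucc (by simpa using h)]
      exact Fin.castSucc_lt_succ
  have wasc : ∀ j : Fin m, (j : ℕ) < k → w j.castSucc < w j.succ := by
    intro j hj
    rw [hw j.castSucc (by simpa using hj)]
    rcases lt_or_ge ((j : ℕ) + 1) k with h | h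
    · rw [hw j.succ (by simpa using h)]
      exact Fin.castSucc_lt_succ
    · have := hw2 j.succ (by simpa using h)
      exact Fin.lt_def.2 (by simp only [Fin.val_castSucc]; omega)
  refine c2_step _ _ ?_ ?_ ?_
  · intro j hj
    rw [dd1_mul]
    rcases lt_or_ge ((j : ℕ) + 1) k with h | h
    · -- a descent of `u`
      have hd : u j.succ < u j.castSucc := by
        rw [hl j.succ (by simpa using h), hl j.castSucc (by simp only [Fin.val_castSucc]; omega)]
          at hj
        exact hj
      have h1 := inv_mul_sg_of_desc u j hd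
      have h2 : u * w * sg j = u * sg j * w := by
        rw [mul_assoc, mul_assoc, sg, mul_swap_eq_swap_mul,
          hw j.castSucc (by simp only [Fin.val_castSucc]; omega), hw j.succ (by simpa using h)]
      rw [h2]
      refine c2_add (ih (inv (u * sg j) + inv w) (by omega) _ _ ?_ hw rfl _ _
        (isSchub_dd1 u P hP j hd) hQ) ((c2_asc hQ j (wasc j (by omega))).mul_left _)
      intro x hx
      rw [Perm.mul_apply, sg_of_ne j x (by omega) (by omega), hu x hx]
    · rcases lt_or_ge (j : ℕ) k with h' | h'
      · -- an ascent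
        exfalso
        have e1 := hu2 j.castSucc (by simpa using h')
        have e2 := hw2 j.succ (by simpa using h)
        rw [hl j.castSucc (by simpa using h'), hr j.succ (by simpa using h)] at hj
        have e3 := Fin.lt_def.1 hj
        omega
      · -- a descent of `w`
        have hd : w j.succ < w j.castSucc := by
          rw [hr j.succ (by simpa using h), hr j.castSucc (by simpa using h')] at hj
          exact hj
        have h1 := inv_mul_sg_of_desc w j hd
        have hnu := c2_asc hP j (uasc j h)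
        have h2 : dd1 j P * Q + pact (sg j) P * dd1 j Q =
            P * dd1 j Q + (dd1 j P * Q + dd1 j P * (-(rt j * dd1 j Q))) := by
          have h3 := dd1_spec j P
          have h4 : pact (sg j) P = P - rt j * dd1 j P := by rw [h3]; ring
          rw [h4]
          ring
        rw [h2, mul_assoc]
        refine c2_add (ih (inv u + inv (w * sg j)) (by omega) _ _ hu ?_ rfl _ _ hP
          (isSchub_dd1 w Q hQ j hd)) ((hnu.mul_right _).add (hnu.mul_right _))
        intro x hx
        rw [Perm.mul_apply, sg_of_ne j x (by omega) (by omega), hw x hx]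
  · intro j hj
    rw [dd1_mul]
    have h1 : u j.castSucc < u j.succ := by
      rcases lt_or_ge ((j : ℕ) + 1) k with h | h
      · rw [hl j.succ (by simpa using h), hl j.castSucc (by simp only [Fin.val_castSucc]; omega)]
          at hj
        exact hj
      · exact uasc j h
    have h2 : w j.castSucc < w j.succ := by
      rcases lt_or_ge (j : ℕ) k with h | h
      · exact wasc j h
      · rw [hr j.succ (by simp only [Fin.val_succ]; omega), hr j.castSucc (by simpa using h)] at hj
        exact hj
    exact ((c2_asc hP j h1).mul_right _).add ((c2_asc hQ j h2).mul_left _)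
  · rw [map_mul, c2_const hP, c2_const hQ]
    by_cases h1 : u = 1
    · subst h1
      simp
    · have h2 : u * w ≠ 1 := by
        intro h
        apply h1
        ext x
        rcases lt_or_ge (x : ℕ) k with hx | hx
        · rw [← hl x hx, h]
        · rw [hu x hx]; rfl
      rw [if_neg h1, if_neg h2, zero_mul]

theorem c2_row_gt (a : ℕ) : ∀ (i : ℕ) (x : Fin (m + 1)), i + a < (x : ℕ) → row m i a x = x := by
  induction a with
  | zero => intro i x _; rfl
  | succ a ih =>
    intro i x hx
    have h1 : sn m i x = x := by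
      unfold sn
      split_ifs with h
      · exact sg_of_ne _ x (by show (x : ℕ) ≠ i; omega) (by show (x : ℕ) ≠ i + 1; omega)
      · rfl
    rw [row, Perm.mul_apply, h1]
    exact ih (i + 1) x (by omega)

theorem c2_row_lt (a : ℕ) : ∀ (i : ℕ) (x : Fin (m + 1)), (x : ℕ) < i → row m i a x = x := by
  induction a with
  | zero => intro i x _; rfl
  | succ a ih =>
    intro i x hx
    have h1 : sn m i x = x := by
      unfold sn
      split_ifs with h
      · exact sg_of_ne _ x (by show (x : ℕ) ≠ i; omega) (by show (x : ℕ) ≠ i + 1; omega)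
      · rfl
    rw [row, Perm.mul_apply, h1]
    exact ih (i + 1) x (by omega)

theorem c2_vb_ge (k : ℕ) (L : List (ℕ × ℕ)) (h : ∀ b ∈ L, b.1 + b.2 < k) (x : Fin (m + 1))
    (hx : k ≤ (x : ℕ)) : vb m L x = x := by
  induction L with
  | nil => rfl
  | cons b L ih =>
    rw [vb, Perm.mul_apply, ih fun c hc => h c (List.mem_cons_of_mem _ hc)]
    exact c2_row_gt b.2 b.1 x (by have := h b List.mem_cons_self; omega)

theorem c2_vb_lt (k : ℕ) (L : List (ℕ × ℕ)) (h : ∀ b ∈ L, k ≤ b.1) (x : Fin (m + 1))
    (hx : (x : ℕ) < k) : vb m L x = x := by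
  induction L with
  | nil => rfl
  | cons b L ih =>
    rw [vb, Perm.mul_apply, ih fun c hc => h c (List.mem_cons_of_mem _ hc)]
    exact c2_row_lt b.2 b.1 x (by have := h b List.mem_cons_self; omega)

/-- C2: orthogonal products -/
theorem EE_append (k : ℕ) (L M : List (ℕ × ℕ)) (_hL : Srt m L) (_hM : Srt m M)
    (h1 : ∀ b ∈ L, b.1 + b.2 < k) (h2 : ∀ c ∈ M, k ≤ c.1) (e1 : EE (vb m L))
    (e2 : EE (vb m M)) : EE (vb m (L ++ M)) := by
  obtain ⟨P, hP, hP2⟩ := e1
  obtain ⟨Q, hQ, hQ2⟩ := e2
  refine ⟨P * Q, ?_, hP2.mul hQ2⟩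
  rw [p2_vb_append]
  exact c2_mul k _ _ _ (fun x hx => c2_vb_ge k L h1 x hx) (fun x hx => c2_vb_lt k M h2 x hx) rfl
    P Q hP hQ

end H50R
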